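import Pool.Agent.H13.Bitrade.Gadget

/-!
# Chains of gadgets

`k` copies of the gadget are glued along the base row and the base column; the out-symbol of copy
`i` is the in-symbol of copy `i + 1`.
-/

namespace Pool.Agent.H13.Bitrade

open Gadget

/-- rows and columns of the chain: `none` is the base, `some (i, r)` is row `r` of copy `i` -/
abbrev Line : Type := Option (ℕ × ℕ)

/-- symbols: `(i, 0)` is the in-symbol of copy `i` and the out-symbol of copy `i - 1` -/
abbrev Sym : Type := ℕ × ℕ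

def line (i r : ℕ) : Line := if r = 0 then none else some (i, r)

def sym (i s : ℕ) : Sym := if s = 1 then (i + 1, 0) else (i, s)

def wcell (i : ℕ) (x : ℕ × ℕ × ℕ × ℕ) : Line × Line × Sym := (line i x.1, line i x.2.1, sym i x.2.2.1)

def bcell (i : ℕ) (x : ℕ × ℕ × ℕ × ℕ) : Line × Line × Sym := (line i x.1, line i x.2.1, sym i x.2.2.2)

def chainW (k : ℕ) : Finset (Line × Line × Sym) :=
  insert (none, none, (k, 0)) ((Finset.range k).biUnion fun i => (cells.map (wcell i)).toFinset)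

def chainB (k : ℕ) : Finset (Line × Line × Sym) :=
  insert (none, none, (0, 0)) ((Finset.range k).biUnion fun i => (cells.map (bcell i)).toFinset)

theorem mem_chainW {k : ℕ} {x : Line × Line × Sym} :
    x ∈ chainW k ↔ x = (none, none, (k, 0)) ∨ ∃ i < k, ∃ c ∈ cells, wcell i c = x := by
  simp only [chainW, Finset.mem_insert, Finset.mem_biUnion, Finset.mem_range, List.mem_toFinset,
    List.mem_map]

theorem mem_chainB {k : ℕ} {x : Line × Line × Sym} :
    x ∈ chainB k ↔ x = (none, none, (0, 0)) ∨ ∃ i < k, ∃ c ∈ cells, bcell i c = x := by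
  simp only [chainB, Finset.mem_insert, Finset.mem_biUnion, Finset.mem_range, List.mem_toFinset,
    List.mem_map]

theorem line_inj {i j r s : ℕ} (h : line i r = line j s) : r = s ∧ (r ≠ 0 → i = j) := by
  unfold line at h
  split_ifs at h with h1 h2 h2
  · exact ⟨h1.trans h2.symm, fun h => absurd h1 h⟩
  · simp only [Option.some.injEq, Prod.mk.injEq] at h
    exact ⟨h.2, fun _ => h.1⟩

theorem sym_inj {i s t : ℕ} (h : sym i s = sym i t) : s = t := by
  unfold sym at h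
  split_ifs at h with h1 h2 h2
  · exact h1.trans h2.symm
  · simp only [Prod.mk.injEq] at h
    omega
  · simp only [Prod.mk.injEq] at h
    omega
  · simp only [Prod.mk.injEq] at h
    exact h.2

/-! ### Labels in `ZMod (p ^ k)` -/

/-- the scaled label `a p^j b^(k-1-j)` -/
def lab (k j : ℕ) (a : ℤ) : ZMod (pp ^ k) := ((a * pp ^ j * bb ^ (k - 1 - j) : ℤ) : ZMod (pp ^ k))

theorem lab_eq {k j j' : ℕ} {a a' : ℤ} (hj : j < k) (hj' : j' < k) (ha : ¬ (pp : ℤ) ∣ a)
    (ha' : ¬ (pp : ℤ) ∣ a') (h : lab k j a = lab k j' a') : j = j' ∧ (pp : ℤ) ∣ a - a' := by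
  have hp : Prime (pp : ℤ) := Nat.prime_iff_prime_int.1 pp_prime
  have hb : ¬ (pp : ℤ) ∣ bb := fun h => not_dvd_bb (Int.natCast_dvd_natCast.1 h)
  have hbp : ∀ n, ¬ (pp : ℤ) ∣ (bb : ℤ) ^ n := fun n h => hb (hp.dvd_of_dvd_pow h)
  have hpp0 : (pp : ℤ) ≠ 0 := hp.ne_zero
  have key : ∀ (j j' : ℕ) (a a' : ℤ), j < k → j < j' → ¬ (pp : ℤ) ∣ a → lab k j a ≠ lab k j' a' := by
    intro j j' a a' hj hlt ha h
    unfold lab at h
    rw [ZMod.intCast_eq_intCast_iff_dvd_sub] at h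
    have h2 : ((pp : ℤ) ^ (j + 1)) ∣ a' * pp ^ j' * bb ^ (k - 1 - j') - a * pp ^ j * bb ^ (k - 1 - j) := by
      refine dvd_trans ?_ h
      push_cast
      exact pow_dvd_pow _ hj
    have h3 : ((pp : ℤ) ^ (j + 1)) ∣ a' * pp ^ j' * bb ^ (k - 1 - j') := by
      have : ((pp : ℤ) ^ (j + 1)) ∣ (pp : ℤ) ^ j' := pow_dvd_pow _ hlt
      exact Dvd.dvd.mul_right (Dvd.dvd.mul_left this _) _
    have h4 : ((pp : ℤ) ^ (j + 1)) ∣ a * pp ^ j * bb ^ (k - 1 - j) := (dvd_sub_right h3).1 h2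
    have h5 : (pp : ℤ) ^ j * pp ∣ (pp : ℤ) ^ j * (a * bb ^ (k - 1 - j)) := by
      rw [← pow_succ]
      convert h4 using 1
      ring
    have h6 := (mul_dvd_mul_iff_left (pow_ne_zero j hpp0)).1 h5
    rcases hp.dvd_or_dvd h6 with h7 | h7
    · exact ha h7
    · exact hbp _ h7
  rcases lt_trichotomy j j' with hlt | heq | hgt
  · exact absurd h (key j j' a a' hj hlt ha)
  · subst heq
    refine ⟨rfl, ?_⟩
    unfold lab at h
    rw [ZMod.intCast_eq_intCast_iff_dvd_sub] at h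
    have h2 : (pp : ℤ) ^ (j + 1) ∣ a' * pp ^ j * bb ^ (k - 1 - j) - a * pp ^ j * bb ^ (k - 1 - j) := by
      refine dvd_trans ?_ h
      push_cast
      exact pow_dvd_pow _ hj
    have h5 : (pp : ℤ) ^ j * pp ∣ (pp : ℤ) ^ j * ((a' - a) * bb ^ (k - 1 - j)) := by
      rw [← pow_succ]
      convert h2 using 1
      ring
    have h6 := (mul_dvd_mul_iff_left (pow_ne_zero j hpp0)).1 h5
    rcases hp.dvd_or_dvd h6 with h7 | h7
    · rw [← neg_sub]
      exact (dvd_neg).2 h7
    · exact absurd h7 (hbp _)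
  · exact absurd h.symm (key j' j a' a hj' hgt ha')

theorem lab_ne_zero {k j : ℕ} {a : ℤ} (hj : j < k) (ha : ¬ (pp : ℤ) ∣ a) : lab k j a ≠ 0 := by
  have hp : Prime (pp : ℤ) := Nat.prime_iff_prime_int.1 pp_prime
  have hb : ¬ (pp : ℤ) ∣ bb := fun h => not_dvd_bb (Int.natCast_dvd_natCast.1 h)
  intro h
  unfold lab at h
  rw [ZMod.intCast_zmod_eq_zero_iff_dvd] at h
  have h2 : (pp : ℤ) ^ (j + 1) ∣ a * pp ^ j * bb ^ (k - 1 - j) := by
    refine dvd_trans ?_ h
    push_cast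
    exact pow_dvd_pow _ hj
  have h5 : (pp : ℤ) ^ j * pp ∣ (pp : ℤ) ^ j * (a * bb ^ (k - 1 - j)) := by
    rw [← pow_succ]
    convert h2 using 1
    ring
  have h6 := (mul_dvd_mul_iff_left (pow_ne_zero j hp.ne_zero)).1 h5
  rcases hp.dvd_or_dvd h6 with h7 | h7
  · exact ha h7
  · exact hb (hp.dvd_of_dvd_pow h7)

theorem lab_add (k j : ℕ) (a a' : ℤ) : lab k j a + lab k j a' = lab k j (a + a') := by
  unfold lab
  push_cast
  ring

theorem lab_zero (k j : ℕ) : lab k j 0 = 0 := by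
  unfold lab
  simp

end Pool.Agent.H13.Bitrade
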