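import Mathlib

/-!
# Latin bitrades and their embeddings in finite abelian groups: definitions
-/

namespace Pool.Agent.H13.Bitrade

variable {R C S : Type}

/-- A partial latin square: a finite set of triples (row, column, symbol) in which any two
coordinates of a triple determine the third. -/
def IsPLS (P : Finset (R × C × S)) : Prop :=
  ∀ x ∈ P, ∀ y ∈ P,
    (x.1 = y.1 ∧ x.2.1 = y.2.1) ∨ (x.1 = y.1 ∧ x.2.2 = y.2.2) ∨ (x.2.1 = y.2.1 ∧ x.2.2 = y.2.2) →
    x = y

/-- `(W, B)` is a latin bitrade: two nonempty disjoint partial latin squares which fill the same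
cells and have the same set of symbols in every row and in every column. -/
structure IsBitrade (W B : Finset (R × C × S)) : Prop where
  pls_left : IsPLS W
  pls_right : IsPLS B
  nonempty_left : W.Nonempty
  nonempty_right : B.Nonempty
  disjoint : Disjoint W B
  cells : ∀ r c, (∃ s, (r, c, s) ∈ W) ↔ ∃ s, (r, c, s) ∈ B
  rows : ∀ r s, (∃ c, (r, c, s) ∈ W) ↔ ∃ c, (r, c, s) ∈ B
  cols : ∀ c s, (∃ r, (r, c, s) ∈ W) ↔ ∃ r, (r, c, s) ∈ B

/-- `P` embeds in the abelian group `G`: there are maps `α, β, γ` from rows, columns and symbols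
to `G`, injective on the rows, columns and symbols occurring in `P`, with `α r + β c = γ s` for
every triple `(r, c, s)` of `P`. -/
def Embeds (P : Finset (R × C × S)) (G : Type) [AddCommGroup G] : Prop :=
  ∃ (α : R → G) (β : C → G) (γ : S → G),
    Set.InjOn α {r | ∃ x ∈ P, x.1 = r} ∧
    Set.InjOn β {c | ∃ x ∈ P, x.2.1 = c} ∧
    Set.InjOn γ {s | ∃ x ∈ P, x.2.2 = s} ∧
    ∀ x ∈ P, α x.1 + β x.2.1 = γ x.2.2

/-- `m(W, B)`: the least order of a finite abelian group in which both `W` and `B` embed
(with possibly different embeddings), and `⊤` (infinity) if there is no such group. -/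
noncomputable def minOrder (W B : Finset (R × C × S)) : ℕ∞ :=
  ⨅ (G : Type) (_ : AddCommGroup G) (_ : Finite G) (_ : Embeds W G) (_ : Embeds B G),
    (Nat.card G : ℕ∞)

end Pool.Agent.H13.Bitrade
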