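import Pool.Agent.H13.Bitrade.Chain

namespace Pool.Agent.H13.Bitrade

open Gadget

theorem not_dvd_of_inj {l : List ℤ} {N : ℕ} {z : ℕ}
    (h : ∀ i < N, ∀ j < N, (pp : ℤ) ∣ getZ l i - getZ l j → i = j) (hz : z < N)
    (hz0 : (pp : ℤ) ∣ getZ l z) {i : ℕ} (hi : i < N) (hne : i ≠ z) : ¬ (pp : ℤ) ∣ getZ l i :=
  fun hd => hne (h i hi z hz (dvd_sub hd hz0))

theorem la_zero : getZ la 0 = 0 := by decide
theorem lb_zero : getZ lb 0 = 0 := by decide
theorem ma_zero : getZ ma 0 = 0 := by decide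
theorem mb_zero : getZ mb 0 = 0 := by decide
theorem lc_zero : getZ lc 0 = bb := by decide
theorem lc_one : getZ lc 1 = pp := by decide
theorem mc_zero : getZ mc 0 = pp := by decide
theorem mc_one : getZ mc 1 = bb := by decide

theorem la_nd {i : ℕ} (hi : i < 19) (h0 : i ≠ 0) : ¬ (pp : ℤ) ∣ getZ la i :=
  not_dvd_of_inj la_inj (by norm_num) (by rw [la_zero]; exact dvd_zero _) hi h0
theorem lb_nd {i : ℕ} (hi : i < 19) (h0 : i ≠ 0) : ¬ (pp : ℤ) ∣ getZ lb i :=
  not_dvd_of_inj lb_inj (by norm_num) (by rw [lb_zero]; exact dvd_zero _) hi h0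
theorem ma_nd {i : ℕ} (hi : i < 19) (h0 : i ≠ 0) : ¬ (pp : ℤ) ∣ getZ ma i :=
  not_dvd_of_inj ma_inj (by norm_num) (by rw [ma_zero]; exact dvd_zero _) hi h0
theorem mb_nd {i : ℕ} (hi : i < 19) (h0 : i ≠ 0) : ¬ (pp : ℤ) ∣ getZ mb i :=
  not_dvd_of_inj mb_inj (by norm_num) (by rw [mb_zero]; exact dvd_zero _) hi h0
theorem lc_nd {i : ℕ} (hi : i < 22) (h0 : i ≠ 1) : ¬ (pp : ℤ) ∣ getZ lc i :=
  not_dvd_of_inj lc_inj (z := 1) (by norm_num) (by rw [lc_one]) hi h0
theorem mc_nd {i : ℕ} (hi : i < 22) (h0 : i ≠ 0) : ¬ (pp : ℤ) ∣ getZ mc i :=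
  not_dvd_of_inj mc_inj (z := 0) (by norm_num) (by rw [mc_zero]) hi h0

/-- line labels given levels and a label list -/
def lineLab (k : ℕ) (lev : ℕ → ℕ) (l : List ℤ) : Line → ZMod (pp ^ k)
  | none => 0
  | some (i, r) => lab k (lev i) (getZ l r)

theorem lineLab_line (k : ℕ) (lev : ℕ → ℕ) (l : List ℤ) (h0 : getZ l 0 = 0) (i r : ℕ) :
    lineLab k lev l (line i r) = lab k (lev i) (getZ l r) := by
  unfold line
  split_ifs with h
  · subst h
    rw [h0, lab_zero]
    rfl
  · rfl

/-- the lines occurring in a chain -/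
def UsedLine (k : ℕ) (x : Line) : Prop := x = none ∨ ∃ i r, i < k ∧ r < 19 ∧ r ≠ 0 ∧ x = some (i, r)

theorem lineLab_injOn (k : ℕ) (lev : ℕ → ℕ) (l : List ℤ) (hlev : ∀ i < k, lev i < k)
    (hlevi : ∀ i < k, ∀ j < k, lev i = lev j → i = j)
    (hinj : ∀ i < 19, ∀ j < 19, (pp : ℤ) ∣ getZ l i - getZ l j → i = j)
    (hnd : ∀ i < 19, i ≠ 0 → ¬ (pp : ℤ) ∣ getZ l i) :
    Set.InjOn (lineLab k lev l) {x | UsedLine k x} := by
  rintro x hx y hy h
  rcases hx with rfl | ⟨i, r, hi, hr, hr0, rfl⟩ <;> rcases hy with rfl | ⟨j, s, hj, hs, hs0, rfl⟩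
  · rfl
  · exact absurd h.symm (lab_ne_zero (hlev j hj) (hnd s hs hs0))
  · exact absurd h (lab_ne_zero (hlev i hi) (hnd r hr hr0))
  · obtain ⟨h1, h2⟩ := lab_eq (hlev i hi) (hlev j hj) (hnd r hr hr0) (hnd s hs hs0) h
    rw [hlevi i hi j hj h1, hinj r hr s hs h2]

theorem usedLine_line {k i r : ℕ} (hi : i < k) (hr : r < 19) : UsedLine k (line i r) := by
  unfold line
  split_ifs with h
  · exact Or.inl rfl
  · exact Or.inr ⟨i, r, hi, hr, h, rfl⟩

def symW (k : ℕ) (x : Sym) : ZMod (pp ^ k) := if x.1 = k then 0 else lab k x.1 (getZ lc x.2)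

def symB (k : ℕ) (x : Sym) : ZMod (pp ^ k) :=
  if x.2 = 0 then (if x.1 = 0 then 0 else lab k (k - x.1) bb) else lab k (k - 1 - x.1) (getZ mc x.2)

theorem symW_sym {k i s : ℕ} (hi : i < k) : symW k (sym i s) = lab k i (getZ lc s) := by
  unfold sym
  split_ifs with h
  · subst h
    unfold symW
    simp only
    split_ifs with h2
    · rw [lc_one]
      unfold lab
      have h3 : k - 1 - i = 0 := by omega
      rw [h3, eq_comm, ZMod.intCast_zmod_eq_zero_iff_dvd]
      rw [pow_zero, mul_one, ← pow_succ', h2]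
      push_cast
      exact dvd_refl _
    · rw [lc_zero, lc_one]
      unfold lab
      have h3 : k - 1 - i = (k - 1 - (i + 1)) + 1 := by omega
      rw [h3]
      push_cast
      ring
  · unfold symW
    simp only
    rw [if_neg (by omega)]

theorem symB_sym {k i s : ℕ} (hi : i < k) :
    symB k (sym i s) = lab k (k - 1 - i) (getZ mc s) := by
  unfold sym
  split_ifs with h
  · subst h
    unfold symB
    simp only [if_true, Nat.succ_ne_zero, if_false]
    rw [mc_one]
    congr 1
    omega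
  · unfold symB
    simp only
    by_cases hs : s = 0
    · subst hs
      simp only [if_true]
      rw [mc_zero]
      split_ifs with h2
      · subst h2
        unfold lab
        have h3 : k - 1 - (k - 1 - 0) = 0 := by omega
        have h4 : k - 1 - 0 + 1 = k := by omega
        rw [h3, eq_comm, ZMod.intCast_zmod_eq_zero_iff_dvd]
        rw [pow_zero, mul_one, ← pow_succ', h4]
        push_cast
        exact dvd_refl _
      · unfold lab
        have h3 : k - 1 - (k - i) + 1 = k - 1 - (k - 1 - i) := by omega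
        have h4 : k - i = k - 1 - i + 1 := by omega
        rw [← h3, h4]
        push_cast
        ring
    · rw [if_neg hs]

/-- the symbols occurring in a chain -/
def UsedSym (k : ℕ) (x : Sym) : Prop :=
  (∃ i ≤ k, x = (i, 0)) ∨ ∃ i s, i < k ∧ s < 22 ∧ 2 ≤ s ∧ x = (i, s)

theorem usedSym_sym {k i s : ℕ} (hi : i < k) (hs : s < 22) : UsedSym k (sym i s) := by
  unfold sym
  split_ifs with h
  · exact Or.inl ⟨i + 1, hi, rfl⟩
  · by_cases h0 : s = 0
    · subst h0
      exact Or.inl ⟨i, hi.le, rfl⟩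
    · exact Or.inr ⟨i, s, hi, hs, by omega, rfl⟩

theorem symW_injOn {k : ℕ} : Set.InjOn (symW k) {x | UsedSym k x} := by
  have key : ∀ x, UsedSym k x → x = (k, 0) ∨ ∃ i s, i < k ∧ s < 22 ∧ s ≠ 1 ∧ x = (i, s) := by
    rintro x (⟨i, hi, rfl⟩ | ⟨i, s, hi, hs, hs2, rfl⟩)
    · rcases hi.lt_or_eq with h | h
      · exact Or.inr ⟨i, 0, h, by norm_num, by norm_num, rfl⟩
      · left; rw [h]
    · exact Or.inr ⟨i, s, hi, hs, by omega, rfl⟩
  have hval : ∀ i s, i < k → symW k (i, s) = lab k i (getZ lc s) := by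
    intro i s hi
    unfold symW
    simp only
    rw [if_neg (by omega)]
  have hval0 : symW k (k, 0) = 0 := by
    unfold symW
    simp
  intro x hx y hy h
  rcases key x hx with rfl | ⟨i, s, hi, hs, hs1, rfl⟩ <;>
    rcases key y hy with rfl | ⟨j, t, hj, ht, ht1, rfl⟩
  · rfl
  · rw [hval0, hval _ _ hj] at h
    exact absurd h.symm (lab_ne_zero hj (lc_nd ht ht1))
  · rw [hval0, hval _ _ hi] at h
    exact absurd h (lab_ne_zero hi (lc_nd hs hs1))
  · rw [hval _ _ hi, hval _ _ hj] at h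
    obtain ⟨h1, h2⟩ := lab_eq hi hj (lc_nd hs hs1) (lc_nd ht ht1) h
    rw [h1, lc_inj s hs t ht h2]

theorem symB_injOn {k : ℕ} : Set.InjOn (symB k) {x | UsedSym k x} := by
  have key : ∀ x, UsedSym k x → x = (0, 0) ∨ ∃ i s, i < k ∧ s < 22 ∧ s ≠ 0 ∧ x = sym i s := by
    rintro x (⟨i, hi, rfl⟩ | ⟨i, s, hi, hs, hs2, rfl⟩)
    · rcases Nat.eq_zero_or_pos i with h | h
      · left; rw [h]
      · refine Or.inr ⟨i - 1, 1, by omega, by norm_num, by norm_num, ?_⟩
        unfold sym
        rw [if_pos rfl]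
        congr 1
        omega
    · refine Or.inr ⟨i, s, hi, hs, by omega, ?_⟩
      unfold sym
      rw [if_neg (by omega)]
  have hval0 : symB k (0, 0) = 0 := by
    unfold symB
    simp
  intro x hx y hy h
  rcases key x hx with rfl | ⟨i, s, hi, hs, hs1, rfl⟩ <;>
    rcases key y hy with rfl | ⟨j, t, hj, ht, ht1, rfl⟩
  · rfl
  · rw [hval0, symB_sym hj] at h
    exact absurd h.symm (lab_ne_zero (by omega) (mc_nd ht ht1))
  · rw [hval0, symB_sym hi] at h
    exact absurd h (lab_ne_zero (by omega) (mc_nd hs hs1))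
  · rw [symB_sym hi, symB_sym hj] at h
    obtain ⟨h1, h2⟩ := lab_eq (by omega) (by omega) (mc_nd hs hs1) (mc_nd ht ht1) h
    have h3 : i = j := by omega
    rw [h3, mc_inj s hs t ht h2]

theorem usedLine_fst_W {k : ℕ} : {r | ∃ x ∈ chainW k, x.1 = r} ⊆ {x | UsedLine k x} := by
  rintro r ⟨x, hx, rfl⟩
  rcases mem_chainW.1 hx with rfl | ⟨i, hi, c, hc, rfl⟩
  · exact Or.inl rfl
  · exact usedLine_line hi (cells_range c hc).1

theorem usedLine_snd_W {k : ℕ} : {r | ∃ x ∈ chainW k, x.2.1 = r} ⊆ {x | UsedLine k x} := by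
  rintro r ⟨x, hx, rfl⟩
  rcases mem_chainW.1 hx with rfl | ⟨i, hi, c, hc, rfl⟩
  · exact Or.inl rfl
  · exact usedLine_line hi (cells_range c hc).2.1

theorem usedSym_W {k : ℕ} : {r | ∃ x ∈ chainW k, x.2.2 = r} ⊆ {x | UsedSym k x} := by
  rintro r ⟨x, hx, rfl⟩
  rcases mem_chainW.1 hx with rfl | ⟨i, hi, c, hc, rfl⟩
  · exact Or.inl ⟨k, le_rfl, rfl⟩
  · exact usedSym_sym hi (cells_range c hc).2.2.1

theorem usedLine_fst_B {k : ℕ} : {r | ∃ x ∈ chainB k, x.1 = r} ⊆ {x | UsedLine k x} := by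
  rintro r ⟨x, hx, rfl⟩
  rcases mem_chainB.1 hx with rfl | ⟨i, hi, c, hc, rfl⟩
  · exact Or.inl rfl
  · exact usedLine_line hi (cells_range c hc).1

theorem usedLine_snd_B {k : ℕ} : {r | ∃ x ∈ chainB k, x.2.1 = r} ⊆ {x | UsedLine k x} := by
  rintro r ⟨x, hx, rfl⟩
  rcases mem_chainB.1 hx with rfl | ⟨i, hi, c, hc, rfl⟩
  · exact Or.inl rfl
  · exact usedLine_line hi (cells_range c hc).2.1

theorem usedSym_B {k : ℕ} : {r | ∃ x ∈ chainB k, x.2.2 = r} ⊆ {x | UsedSym k x} := by
  rintro r ⟨x, hx, rfl⟩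
  rcases mem_chainB.1 hx with rfl | ⟨i, hi, c, hc, rfl⟩
  · exact Or.inl ⟨0, Nat.zero_le _, rfl⟩
  · exact usedSym_sym hi (cells_range c hc).2.2.2

theorem embeds_W (k : ℕ) : Embeds (chainW k) (ZMod (pp ^ k)) := by
  refine ⟨lineLab k id la, lineLab k id lb, symW k, ?_, ?_, ?_, ?_⟩
  · exact (lineLab_injOn k id la (fun i hi => hi) (fun i _ j _ h => h) la_inj
      (fun i hi h0 => la_nd hi h0)).mono usedLine_fst_W
  · exact (lineLab_injOn k id lb (fun i hi => hi) (fun i _ j _ h => h) lb_inj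
      (fun i hi h0 => lb_nd hi h0)).mono usedLine_snd_W
  · exact symW_injOn.mono usedSym_W
  · intro x hx
    rcases mem_chainW.1 hx with rfl | ⟨i, hi, c, hc, rfl⟩
    · simp [lineLab, symW]
    · simp only [wcell]
      rw [lineLab_line _ _ _ la_zero, lineLab_line _ _ _ lb_zero, symW_sym hi, id, lab_add,
        white_eq c hc]

theorem embeds_B (k : ℕ) : Embeds (chainB k) (ZMod (pp ^ k)) := by
  refine ⟨lineLab k (fun i => k - 1 - i) ma, lineLab k (fun i => k - 1 - i) mb, symB k, ?_, ?_, ?_, ?_⟩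
  · exact (lineLab_injOn k _ ma (fun i hi => by omega) (fun i _ j _ h => by omega) ma_inj
      (fun i hi h0 => ma_nd hi h0)).mono usedLine_fst_B
  · exact (lineLab_injOn k _ mb (fun i hi => by omega) (fun i _ j _ h => by omega) mb_inj
      (fun i hi h0 => mb_nd hi h0)).mono usedLine_snd_B
  · exact symB_injOn.mono usedSym_B
  · intro x hx
    rcases mem_chainB.1 hx with rfl | ⟨i, hi, c, hc, rfl⟩
    · simp [lineLab, symB]
    · simp only [bcell]
      rw [lineLab_line _ _ _ ma_zero, lineLab_line _ _ _ mb_zero, symB_sym hi, lab_add,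
        black_eq c hc]

/-- An embedded set of triples is a partial latin square. -/
theorem IsPLS.of_embeds {R C S : Type} {P : Finset (R × C × S)} {G : Type} [AddCommGroup G]
    (h : Embeds P G) : IsPLS P := by
  obtain ⟨α, β, γ, hα, hβ, hγ, hP⟩ := h
  rintro ⟨r, c, s⟩ hx ⟨r', c', s'⟩ hy hxy
  have e1 := hP _ hx
  have e2 := hP _ hy
  simp only at e1 e2 hxy
  have mr : r ∈ {r | ∃ x ∈ P, x.1 = r} := ⟨_, hx, rfl⟩
  have mr' : r' ∈ {r | ∃ x ∈ P, x.1 = r} := ⟨_, hy, rfl⟩
  have mc : c ∈ {r | ∃ x ∈ P, x.2.1 = r} := ⟨_, hx, rfl⟩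
  have mc' : c' ∈ {r | ∃ x ∈ P, x.2.1 = r} := ⟨_, hy, rfl⟩
  have ms : s ∈ {r | ∃ x ∈ P, x.2.2 = r} := ⟨_, hx, rfl⟩
  have ms' : s' ∈ {r | ∃ x ∈ P, x.2.2 = r} := ⟨_, hy, rfl⟩
  rcases hxy with ⟨rfl, rfl⟩ | ⟨rfl, rfl⟩ | ⟨rfl, rfl⟩
  · have : γ s = γ s' := by rw [← e1, ← e2]
    rw [hγ ms ms' this]
  · have : β c = β c' := by
      have := e1.trans e2.symm
      exact add_left_cancel this
    rw [hβ mc mc' this]
  · have : α r = α r' := by
      have := e1.trans e2.symm
      exact add_right_cancel this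
    rw [hα mr mr' this]

theorem isBitrade_chain {k : ℕ} (hk : 0 < k) : IsBitrade (chainW k) (chainB k) where
  pls_left := IsPLS.of_embeds (embeds_W k)
  pls_right := IsPLS.of_embeds (embeds_B k)
  nonempty_left := ⟨_, mem_chainW.2 (Or.inl rfl)⟩
  nonempty_right := ⟨_, mem_chainB.2 (Or.inl rfl)⟩
  disjoint := by
    rw [Finset.disjoint_left]
    intro x hx hy
    rcases mem_chainW.1 hx with rfl | ⟨i, hi, c, hc, rfl⟩
    · rcases mem_chainB.1 hy with h | ⟨j, hj, d, hd, h⟩
      · simp only [Prod.mk.injEq] at h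
        omega
      · simp only [bcell, Prod.mk.injEq] at h
        have h1 := (line_inj (i := j) (j := 0) (s := 0) (h.1.trans (by simp [line]))).1
        have h2 := (line_inj (i := j) (j := 0) (s := 0) (h.2.1.trans (by simp [line]))).1
        exact base_not_mem d hd ⟨h1, h2⟩
    · rcases mem_chainB.1 hy with h | ⟨j, hj, d, hd, h⟩
      · simp only [wcell, Prod.mk.injEq] at h
        have h1 := (line_inj (i := i) (j := 0) (s := 0) (h.1.trans (by simp [line]))).1
        have h2 := (line_inj (i := i) (j := 0) (s := 0) (h.2.1.trans (by simp [line]))).1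
        exact base_not_mem c hc ⟨h1, h2⟩
      · simp only [wcell, bcell, Prod.mk.injEq] at h
        obtain ⟨h1, h2, h3⟩ := h
        obtain ⟨e1, f1⟩ := line_inj h1
        obtain ⟨e2, f2⟩ := line_inj h2
        have hij : j = i := by
          by_contra hne
          apply base_not_mem d hd
          refine ⟨?_, ?_⟩
          · by_contra h0; exact hne (f1 h0)
          · by_contra h0; exact hne (f2 h0)
        subst hij
        have hcd := cells_inj d hd c hc e1 e2
        subst hcd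
        exact white_ne_black d hd (sym_inj h3).symm
  cells := by
    intro r c
    constructor
    · rintro ⟨s, hs⟩
      rcases mem_chainW.1 hs with h | ⟨i, hi, d, hd, h⟩
      · simp only [Prod.mk.injEq] at h
        exact ⟨(0, 0), mem_chainB.2 (Or.inl (by rw [h.1, h.2.1]))⟩
      · simp only [wcell, Prod.mk.injEq] at h
        exact ⟨sym i d.2.2.2, mem_chainB.2 (Or.inr ⟨i, hi, d, hd, by
          simp only [bcell]; rw [h.1, h.2.1]⟩)⟩
    · rintro ⟨s, hs⟩
      rcases mem_chainB.1 hs with h | ⟨i, hi, d, hd, h⟩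
      · simp only [Prod.mk.injEq] at h
        exact ⟨(k, 0), mem_chainW.2 (Or.inl (by rw [h.1, h.2.1]))⟩
      · simp only [bcell, Prod.mk.injEq] at h
        exact ⟨sym i d.2.2.1, mem_chainW.2 (Or.inr ⟨i, hi, d, hd, by
          simp only [wcell]; rw [h.1, h.2.1]⟩)⟩
  rows := by
    intro r s
    constructor
    · rintro ⟨c, hc⟩
      rcases mem_chainW.1 hc with h | ⟨i, hi, d, hd, h⟩
      · simp only [Prod.mk.injEq] at h
        obtain ⟨e, he, he1, he2⟩ := row_zero_black_one
        refine ⟨line (k - 1) e.2.1, mem_chainB.2 (Or.inr ⟨k - 1, by omega, e, he, ?_⟩)⟩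
        simp only [bcell, Prod.mk.injEq]
        refine ⟨?_, trivial, ?_⟩
        · rw [he1, h.1]; simp [line]
        · rw [he2, h.2.2]
          simp only [sym, if_true]
          congr 1
          omega
      · simp only [wcell, Prod.mk.injEq] at h
        rcases row_wb d hd with ⟨h1, h2⟩ | ⟨e, he, he1, he2⟩
        · rcases Nat.eq_zero_or_pos i with hi0 | hi0
          · subst hi0
            refine ⟨none, mem_chainB.2 (Or.inl ?_)⟩
            rw [← h.1, ← h.2.2, h1, h2]
            simp [line, sym]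
          · obtain ⟨e, he, he1, he2⟩ := row_zero_black_one
            refine ⟨line (i - 1) e.2.1, mem_chainB.2 (Or.inr ⟨i - 1, by omega, e, he, ?_⟩)⟩
            simp only [bcell, Prod.mk.injEq]
            refine ⟨?_, trivial, ?_⟩
            · rw [he1, ← h.1, h1]; simp [line]
            · rw [he2, ← h.2.2, h2]
              simp only [sym, if_true]
              rw [if_neg (by norm_num)]
              congr 1
              omega
        · refine ⟨line i e.2.1, mem_chainB.2 (Or.inr ⟨i, hi, e, he, ?_⟩)⟩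
          simp only [bcell, Prod.mk.injEq]
          exact ⟨by rw [he1, ← h.1], trivial, by rw [he2, ← h.2.2]⟩
    · rintro ⟨c, hc⟩
      rcases mem_chainB.1 hc with h | ⟨i, hi, d, hd, h⟩
      · simp only [Prod.mk.injEq] at h
        obtain ⟨e, he, he1, he2⟩ := row_zero_white_zero
        refine ⟨line 0 e.2.1, mem_chainW.2 (Or.inr ⟨0, hk, e, he, ?_⟩)⟩
        simp only [wcell, Prod.mk.injEq]
        refine ⟨?_, trivial, ?_⟩
        · rw [he1, h.1]; simp [line]
        · rw [he2, h.2.2]; simp [sym]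
      · simp only [bcell, Prod.mk.injEq] at h
        rcases row_bw d hd with ⟨h1, h2⟩ | ⟨e, he, he1, he2⟩
        · rcases Nat.lt_or_ge (i + 1) k with hik | hik
          · obtain ⟨e, he, he1, he2⟩ := row_zero_white_zero
            refine ⟨line (i + 1) e.2.1, mem_chainW.2 (Or.inr ⟨i + 1, hik, e, he, ?_⟩)⟩
            simp only [wcell, Prod.mk.injEq]
            refine ⟨?_, trivial, ?_⟩
            · rw [he1, ← h.1, h1]; simp [line]
            · rw [he2, ← h.2.2, h2]; simp [sym]
          · have hk' : k = i + 1 := by omega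
            refine ⟨none, mem_chainW.2 (Or.inl ?_)⟩
            rw [← h.1, ← h.2.2, h1, h2, hk']
            simp [line, sym]
        · refine ⟨line i e.2.1, mem_chainW.2 (Or.inr ⟨i, hi, e, he, ?_⟩)⟩
          simp only [wcell, Prod.mk.injEq]
          exact ⟨by rw [he1, ← h.1], trivial, by rw [he2, ← h.2.2]⟩
  cols := by
    intro c s
    constructor
    · rintro ⟨r, hr⟩
      rcases mem_chainW.1 hr with h | ⟨i, hi, d, hd, h⟩
      · simp only [Prod.mk.injEq] at h
        obtain ⟨e, he, he1, he2⟩ := col_zero_black_one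
        refine ⟨line (k - 1) e.1, mem_chainB.2 (Or.inr ⟨k - 1, by omega, e, he, ?_⟩)⟩
        simp only [bcell, Prod.mk.injEq]
        refine ⟨trivial, ?_, ?_⟩
        · rw [he1, h.2.1]; simp [line]
        · rw [he2, h.2.2]
          simp only [sym, if_true]
          congr 1
          omega
      · simp only [wcell, Prod.mk.injEq] at h
        rcases col_wb d hd with ⟨h1, h2⟩ | ⟨e, he, he1, he2⟩
        · rcases Nat.eq_zero_or_pos i with hi0 | hi0
          · subst hi0
            refine ⟨none, mem_chainB.2 (Or.inl ?_)⟩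
            rw [← h.2.1, ← h.2.2, h1, h2]
            simp [line, sym]
          · obtain ⟨e, he, he1, he2⟩ := col_zero_black_one
            refine ⟨line (i - 1) e.1, mem_chainB.2 (Or.inr ⟨i - 1, by omega, e, he, ?_⟩)⟩
            simp only [bcell, Prod.mk.injEq]
            refine ⟨trivial, ?_, ?_⟩
            · rw [he1, ← h.2.1, h1]; simp [line]
            · rw [he2, ← h.2.2, h2]
              simp only [sym, if_true]
              rw [if_neg (by norm_num)]
              congr 1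
              omega
        · refine ⟨line i e.1, mem_chainB.2 (Or.inr ⟨i, hi, e, he, ?_⟩)⟩
          simp only [bcell, Prod.mk.injEq]
          exact ⟨trivial, by rw [he1, ← h.2.1], by rw [he2, ← h.2.2]⟩
    · rintro ⟨r, hr⟩
      rcases mem_chainB.1 hr with h | ⟨i, hi, d, hd, h⟩
      · simp only [Prod.mk.injEq] at h
        obtain ⟨e, he, he1, he2⟩ := col_zero_white_zero
        refine ⟨line 0 e.1, mem_chainW.2 (Or.inr ⟨0, hk, e, he, ?_⟩)⟩
        simp only [wcell, Prod.mk.injEq]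
        refine ⟨trivial, ?_, ?_⟩
        · rw [he1, h.2.1]; simp [line]
        · rw [he2, h.2.2]; simp [sym]
      · simp only [bcell, Prod.mk.injEq] at h
        rcases col_bw d hd with ⟨h1, h2⟩ | ⟨e, he, he1, he2⟩
        · rcases Nat.lt_or_ge (i + 1) k with hik | hik
          · obtain ⟨e, he, he1, he2⟩ := col_zero_white_zero
            refine ⟨line (i + 1) e.1, mem_chainW.2 (Or.inr ⟨i + 1, hik, e, he, ?_⟩)⟩
            simp only [wcell, Prod.mk.injEq]
            refine ⟨trivial, ?_, ?_⟩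
            · rw [he1, ← h.2.1, h1]; simp [line]
            · rw [he2, ← h.2.2, h2]; simp [sym]
          · have hk' : k = i + 1 := by omega
            refine ⟨none, mem_chainW.2 (Or.inl ?_)⟩
            rw [← h.2.1, ← h.2.2, h1, h2, hk']
            simp [line, sym]
        · refine ⟨line i e.1, mem_chainW.2 (Or.inr ⟨i, hi, e, he, ?_⟩)⟩
          simp only [wcell, Prod.mk.injEq]
          exact ⟨trivial, by rw [he1, ← h.2.1], by rw [he2, ← h.2.2]⟩

end Pool.Agent.H13.Bitrade
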