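import Pool.Agent.H13.Bitrade.Embed

namespace Pool.Agent.H13.Bitrade

open Gadget

/-! ### The number of filled cells -/

theorem wcell_inj {i j : ℕ} {c d : ℕ × ℕ × ℕ × ℕ} (hc : c ∈ cells) (hd : d ∈ cells)
    (h : wcell i c = wcell j d) : i = j ∧ c = d := by
  simp only [wcell, Prod.mk.injEq] at h
  obtain ⟨h1, h2, h3⟩ := h
  obtain ⟨e1, f1⟩ := line_inj h1
  obtain ⟨e2, f2⟩ := line_inj h2
  have hij : i = j := by
    by_contra hne
    apply base_not_mem c hc
    refine ⟨?_, ?_⟩
    · by_contra h0; exact hne (f1 h0)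
    · by_contra h0; exact hne (f2 h0)
  exact ⟨hij, cells_inj c hc d hd e1 e2⟩

theorem card_chainW (k : ℕ) : (chainW k).card = 57 * k + 1 := by
  unfold chainW
  rw [Finset.card_insert_of_notMem, Finset.card_biUnion]
  · have : ∀ i ∈ Finset.range k, ((cells.map (wcell i)).toFinset).card = 57 := by
      intro i _
      rw [List.toFinset_card_of_nodup, List.length_map]
      · rfl
      · exact List.Nodup.map_on (fun x hx y hy h => (wcell_inj hx hy h).2) cells_nodup
    rw [Finset.sum_congr rfl this, Finset.sum_const, Finset.card_range, smul_eq_mul, mul_comm]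
  · intro i _ j _ hij
    rw [Function.onFun, Finset.disjoint_left]
    intro x hx hy
    rw [List.mem_toFinset, List.mem_map] at hx hy
    obtain ⟨c, hc, rfl⟩ := hx
    obtain ⟨d, hd, h⟩ := hy
    exact hij (wcell_inj hd hc h).1.symm
  · intro hmem
    rw [Finset.mem_biUnion] at hmem
    obtain ⟨i, _, hi⟩ := hmem
    rw [List.mem_toFinset, List.mem_map] at hi
    obtain ⟨c, hc, h⟩ := hi
    simp only [wcell, Prod.mk.injEq] at h
    have h1 := (line_inj (i := i) (j := 0) (s := 0) (h.1.trans (by simp [line]))).1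
    have h2 := (line_inj (i := i) (j := 0) (s := 0) (h.2.1.trans (by simp [line]))).1
    exact base_not_mem c hc ⟨h1, h2⟩

/-! ### The lower bound -/

theorem sum_fiber {G X : Type} [AddCommGroup G] (l : List (ℤ × X)) (f : X → ℕ) (α : ℕ → G) (N : ℕ)
    (h : ∀ x ∈ l, f x.2 < N) :
    (l.map fun x => x.1 • α (f x.2)).sum =
      ∑ r ∈ Finset.range N, ((l.map fun x => if f x.2 = r then x.1 else 0).sum) • α r := by
  induction l with
  | nil => simp
  | cons x l ih =>
    have ih' := ih (fun y hy => h y (List.mem_cons_of_mem _ hy))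
    rw [List.map_cons, List.sum_cons, ih']
    have hx : f x.2 ∈ Finset.range N := Finset.mem_range.2 (h x List.mem_cons_self)
    have : x.1 • α (f x.2) = ∑ r ∈ Finset.range N, (if f x.2 = r then x.1 else 0) • α r := by
      simp only [ite_smul, zero_smul]
      rw [Finset.sum_ite_eq, if_pos hx]
    rw [this, ← Finset.sum_add_distrib]
    apply Finset.sum_congr rfl
    intro r _
    rw [List.map_cons, List.sum_cons, add_smul]

theorem sum_three {G X : Type} [AddCommGroup G] (l : List (ℤ × X)) (a b c : X → G) :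
    (l.map fun x => x.1 • (a x.2 + b x.2 - c x.2)).sum =
      (l.map fun x => x.1 • a x.2).sum + (l.map fun x => x.1 • b x.2).sum -
        (l.map fun x => x.1 • c x.2).sum := by
  induction l with
  | nil => simp
  | cons x l ih =>
    rw [List.map_cons, List.sum_cons, ih, List.map_cons, List.sum_cons, List.map_cons,
      List.sum_cons, List.map_cons, List.sum_cons, smul_sub, smul_add]
    abel

/-- The relation forced by one gadget. -/
theorem gadget_relation {G : Type} [AddCommGroup G] {k : ℕ} {α β : Line → G} {γ : Sym → G}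
    (h : ∀ x ∈ chainW k, α x.1 + β x.2.1 = γ x.2.2) {i : ℕ} (hi : i < k) :
    (pp : ℤ) • (γ (i, 0) - (α none + β none)) = (bb : ℤ) • (γ (i + 1, 0) - (α none + β none)) := by
  have hcell : ∀ c ∈ cells, α (line i c.1) + β (line i c.2.1) - γ (sym i c.2.2.1) = 0 := by
    intro c hc
    have := h (wcell i c) (mem_chainW.2 (Or.inr ⟨i, hi, c, hc, rfl⟩))
    simp only [wcell] at this
    rw [this, sub_self]
  have hsum : (mcells.map fun x => x.1 • (α (line i x.2.1) + β (line i x.2.2.1) -
      γ (sym i x.2.2.2.1))).sum = 0 := by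
    apply List.sum_eq_zero
    intro y hy
    rw [List.mem_map] at hy
    obtain ⟨x, hx, rfl⟩ := hy
    rw [hcell _ (mcells_map x hx), smul_zero]
  have h3 := sum_three mcells (fun c : ℕ × ℕ × ℕ × ℕ => α (line i c.1))
    (fun c => β (line i c.2.1)) (fun c => γ (sym i c.2.2.1))
  rw [hsum] at h3
  have hr := sum_fiber mcells (fun c : ℕ × ℕ × ℕ × ℕ => c.1) (fun r => α (line i r)) 19
    (fun x hx => (cells_range _ (mcells_map x hx)).1)
  have hc := sum_fiber mcells (fun c : ℕ × ℕ × ℕ × ℕ => c.2.1) (fun r => β (line i r)) 19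
    (fun x hx => (cells_range _ (mcells_map x hx)).2.1)
  have hs := sum_fiber mcells (fun c : ℕ × ℕ × ℕ × ℕ => c.2.2.1) (fun r => γ (sym i r)) 22
    (fun x hx => (cells_range _ (mcells_map x hx)).2.2.1)
  rw [hr, hc, hs] at h3
  have e1 : ∑ r ∈ Finset.range 19, ((mcells.map fun x => if x.2.1 = r then x.1 else 0).sum) •
      α (line i r) = ((pp : ℤ) - bb) • α none := by
    rw [Finset.sum_eq_single 0]
    · rw [mult_row_zero]; simp [line]
    · intro r hr hr0
      rw [mult_row r (Finset.mem_range.1 hr) hr0, zero_smul]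
    · intro h0; simp at h0
  have e2 : ∑ r ∈ Finset.range 19, ((mcells.map fun x => if x.2.2.1 = r then x.1 else 0).sum) •
      β (line i r) = ((pp : ℤ) - bb) • β none := by
    rw [Finset.sum_eq_single 0]
    · rw [mult_col_zero]; simp [line]
    · intro r hr hr0
      rw [mult_col r (Finset.mem_range.1 hr) hr0, zero_smul]
    · intro h0; simp at h0
  have e3 : ∑ r ∈ Finset.range 22, ((mcells.map fun x => if x.2.2.2.1 = r then x.1 else 0).sum) •
      γ (sym i r) = (pp : ℤ) • γ (i, 0) - (bb : ℤ) • γ (i + 1, 0) := by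
    rw [← Finset.sum_subset (s₁ := {0, 1}) (by decide)]
    · rw [Finset.sum_pair (by norm_num), mult_sym_zero, mult_sym_one]
      simp [sym, sub_eq_add_neg]
    · intro r hr hr0
      simp only [Finset.mem_insert, Finset.mem_singleton, not_or] at hr0
      rw [mult_sym r (Finset.mem_range.1 hr) hr0.1 hr0.2, zero_smul]
  rw [e1, e2, e3] at h3
  have h4 : (pp : ℤ) • γ (i, 0) - (bb : ℤ) • γ (i + 1, 0) =
      ((pp : ℤ) - bb) • α none + ((pp : ℤ) - bb) • β none := (sub_eq_zero.1 h3.symm).symm
  rw [smul_sub, smul_sub, smul_add, smul_add]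
  rw [sub_smul, sub_smul] at h4
  rw [sub_eq_iff_eq_add] at h4
  rw [h4]
  abel

theorem lower_bound {G : Type} [AddCommGroup G] [Finite G] {k : ℕ} (hk : 0 < k)
    (h : Embeds (chainW k) G) : pp ^ k ≤ Nat.card G := by
  obtain ⟨α, β, γ, -, -, hγ, hP⟩ := h
  let x : ℕ → G := fun i => γ (i, 0) - (α none + β none)
  have hxk : x k = 0 := by
    have := hP _ (mem_chainW.2 (Or.inl rfl))
    simp only at this
    simp only [x]
    rw [← this, sub_self]
  have hrel : ∀ i < k, (pp : ℤ) • x i = (bb : ℤ) • x (i + 1) := fun i hi => gadget_relation hP hi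
  have hpow : ∀ j i, i + j ≤ k → ((pp : ℤ) ^ j) • x i = ((bb : ℤ) ^ j) • x (i + j) := by
    intro j
    induction j with
    | zero => intro i _; simp
    | succ j ih =>
      intro i hij
      rw [pow_succ', mul_smul, ih i (by omega), smul_comm, hrel (i + j) (by omega), ← mul_smul,
        ← pow_succ]
      rfl
  have hlast : x (k - 1) ≠ 0 := by
    intro h0
    have h1 : γ (k - 1, 0) = γ (k, 0) := by
      have e1 : γ (k - 1, 0) = α none + β none := sub_eq_zero.1 h0
      have e2 : γ (k, 0) = α none + β none := sub_eq_zero.1 hxk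
      rw [e1, e2]
    have m1 : ((k - 1, 0) : Sym) ∈ {s | ∃ y ∈ chainW k, y.2.2 = s} := by
      obtain ⟨e, he, -, he2⟩ := row_zero_white_zero
      refine ⟨wcell (k - 1) e, mem_chainW.2 (Or.inr ⟨k - 1, by omega, e, he, rfl⟩), ?_⟩
      simp only [wcell]
      rw [he2]
      simp [sym]
    have m2 : ((k, 0) : Sym) ∈ {s | ∃ y ∈ chainW k, y.2.2 = s} :=
      ⟨_, mem_chainW.2 (Or.inl rfl), rfl⟩
    have h2 := hγ m1 m2 h1
    simp only [Prod.mk.injEq] at h2
    omega
  have hz : pp ^ k • x 0 = 0 := by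
    have := hpow k 0 (by omega)
    rw [zero_add, hxk, smul_zero] at this
    have e : ((pp : ℤ) ^ k) • x 0 = pp ^ k • x 0 := by
      rw [← natCast_zsmul]
      push_cast
      rfl
    rw [← e, this]
  have hnz : ¬ pp ^ (k - 1) • x 0 = 0 := by
    intro h0
    have h1 := hpow (k - 1) 0 (by omega)
    rw [zero_add] at h1
    have e : ((pp : ℤ) ^ (k - 1)) • x 0 = pp ^ (k - 1) • x 0 := by
      rw [← natCast_zsmul]
      push_cast
      rfl
    rw [e, h0] at h1
    have h2 := hrel (k - 1) (by omega)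
    have h3 : k - 1 + 1 = k := by omega
    rw [h3, hxk, smul_zero] at h2
    -- Bezout
    have hcop : IsCoprime ((bb : ℤ) ^ (k - 1)) (pp : ℤ) := by
      apply IsCoprime.pow_left
      rw [Nat.isCoprime_iff_coprime]
      exact ((Nat.Prime.coprime_iff_not_dvd pp_prime).2 not_dvd_bb).symm
    obtain ⟨u, v, huv⟩ := hcop
    apply hlast
    calc x (k - 1) = (1 : ℤ) • x (k - 1) := (one_smul _ _).symm
      _ = (u * (bb : ℤ) ^ (k - 1) + v * pp) • x (k - 1) := by rw [huv]
      _ = 0 := by rw [add_smul, mul_smul, mul_smul, ← h1, h2, smul_zero, smul_zero, add_zero]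
  have hord : addOrderOf (x 0) = pp ^ (k - 1 + 1) := by
    have : Fact (Nat.Prime pp) := ⟨pp_prime⟩
    apply addOrderOf_eq_prime_pow hnz
    have h3 : k - 1 + 1 = k := by omega
    rw [h3]
    exact hz
  have h3 : k - 1 + 1 = k := by omega
  rw [h3] at hord
  rw [← hord]
  exact Nat.le_of_dvd Nat.card_pos (addOrderOf_dvd_natCard _)

theorem minOrder_chain {k : ℕ} (hk : 0 < k) :
    minOrder (chainW k) (chainB k) = ((pp ^ k : ℕ) : ℕ∞) := by
  have hpos : 0 < pp ^ k := pow_pos pp_prime.pos k
  have : NeZero (pp ^ k) := ⟨hpos.ne'⟩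
  apply le_antisymm
  · unfold minOrder
    refine iInf_le_of_le (ZMod (pp ^ k)) (iInf_le_of_le inferInstance (iInf_le_of_le inferInstance
      (iInf_le_of_le (embeds_W k) (iInf_le_of_le (embeds_B k) ?_))))
    rw [Nat.card_zmod]
  · unfold minOrder
    refine le_iInf fun G => le_iInf fun _ => le_iInf fun _ => le_iInf fun hW => le_iInf fun _ => ?_
    exact_mod_cast lower_bound hk hW

theorem growth {k : ℕ} (hk : 4 ≤ k) : ((4 : ℝ) / 3) ^ (57 * k + 1) ≤ (pp : ℝ) ^ k := by
  induction k, hk using Nat.le_induction with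
  | base => unfold pp; norm_num
  | succ k _ ih =>
    have h1 : ((4 : ℝ) / 3) ^ 57 ≤ (pp : ℝ) := by unfold pp; norm_num
    calc ((4 : ℝ) / 3) ^ (57 * (k + 1) + 1) = ((4 : ℝ) / 3) ^ (57 * k + 1) * ((4 : ℝ) / 3) ^ 57 := by
          rw [← pow_add]
          congr 1
      _ ≤ (pp : ℝ) ^ k * pp := by
          apply mul_le_mul ih h1 (by positivity) (by positivity)
      _ = (pp : ℝ) ^ (k + 1) := by rw [pow_succ]

end Pool.Agent.H13.Bitrade
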