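import Pool.Agent.H13.Bitrade.Defs

/-!
# An explicit gadget

`cells` lists the 57 filled cells of a gadget as tuples (row, column, white symbol, black symbol).
Row 0, column 0 are the base row and column, symbols 0 and 1 are the in- and out-symbol.
-/

namespace Pool.Agent.H13.Bitrade.Gadget

def cells : List (ℕ × ℕ × ℕ × ℕ) :=
  [(1, 1, 3, 0), (1, 0, 0, 10), (1, 2, 2, 3), (1, 4, 10, 2), (0, 1, 0, 6), (0, 5, 6, 15), (0, 13, 15, 1), (2, 1, 6, 3), (2, 2, 3, 4), (2, 3, 4, 6), (3, 2, 4, 7), (3, 3, 8, 4), (3, 6, 7, 8), (4, 2, 7, 2), (4, 4, 2, 5), (4, 6, 5, 7), (5, 3, 6, 8), (5, 5, 11, 6), (5, 7, 8, 11), (6, 6, 8, 5), (6, 7, 9, 8), (6, 8, 5, 9), (7, 0, 10, 12), (7, 8, 9, 10), (7, 9, 12, 9), (8, 4, 5, 10), (8, 8, 10, 5), (9, 7, 11, 9), (9, 9, 9, 13), (9, 10, 13, 11), (10, 5, 15, 11), (10, 10, 11, 14), (10, 12, 14, 15), (11, 9, 13, 12), (11, 10, 14, 13), (11, 11, 12, 14), (12, 0, 12, 1), (12, 11, 16, 12), (12, 14, 1, 16), (13, 11, 14, 16), (13,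 12, 17, 14), (13, 15, 16, 17), (14, 12, 15, 17), (14, 13, 18, 15), (14, 16, 17, 18), (15, 13, 1, 18), (15, 14, 19, 1), (15, 17, 18, 19), (16, 14, 16, 19), (16, 15, 20, 16), (16, 18, 19, 20), (17, 15, 17, 20), (17, 16, 21, 17), (17, 18, 20, 21), (18, 16, 18, 21), (18, 17, 19, 18), (18, 18, 21, 19)]

def mult : List ℤ :=
  [-3275974, 7376210, -1945441, -2154795, 6848943, 3133421, 1647649, -3572969, 3275974, 296995, -296995, -736543, 1033538, -1033538, 1945441, -911903, 439548, -1297726, 858178, -121635, -580914, 702549, 2364149, -493195, -1870954, 209354, -209354, -277264, 1074109, -796845, -1835695, 1574990, 260705, 796845, -778145, -18700, 1889654, -498740, -1390914, 517440, -448751, -68689, 188046, -443423, 255377, -1204226, 823485, 380741, 567429, -124685, -442744, 193374, -318059, 124685, 62682, -380741, 318059]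

def la : List ℤ :=
  [0, 2595140, 2593355, 2924392, 2830575, 2260533, 3349246, 4956630, 2972193, 3857207, 3493382, 4728993, 8040490, 5373142, 3490620, 5543276, 5167324, 4585554, 5098718]

def lb : List ℤ :=
  [0, 2595140, 2596925, 2927962, 2361490, 5188495, 2503108, 3591821, 1984437, 3083860, 3955646, 3311497, 5191257, 8681877, 6184663, 5978845, 7073779, 6629221, 6560615]

def lc : List ℤ :=
  [2595140, 14225153, 5192065, 5190280, 5521317, 5333683, 5188495, 5427500, 5852354, 6941067, 4956630, 7449028, 8040490, 7812853, 8684639, 8681877, 11351987, 10564399, 12172497, 11727939, 11146169, 11659333]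

def ma : List ℤ :=
  [0, 6848943, 3572969, 3869964, 4903502, 3133421, 3991599, 4484794, 4694148, 3410685, 1835695, 2613840, 2595140, 2096400, 1647649, 1204226, 2027711, 1903026, 1584967]

def mb : List ℤ :=
  [0, 7376210, 4100236, 3803241, 2154795, 4242789, 3066698, 2945063, 2364149, 1870954, 2667799, 1889654, 2407094, 2595140, 1390914, 1958343, 2151717, 2214399, 1833658]

def mc : List ℤ :=
  [14225153, 2595140, 9003738, 10949179, 7673205, 7058297, 7376210, 7970200, 6936662, 6355748, 6848943, 6078484, 4484794, 5281639, 4503494, 4242789, 3986054, 4054743, 3799366, 3418625, 3861369, 3736684]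

def pp : ℕ := 14225153

def bb : ℕ := 2595140

def getZ (l : List ℤ) (n : ℕ) : ℤ := l.getD n 0

set_option maxRecDepth 100000

theorem cells_range : ∀ x ∈ cells, x.1 < 19 ∧ x.2.1 < 19 ∧ x.2.2.1 < 22 ∧ x.2.2.2 < 22 := by
  decide

theorem white_eq : ∀ x ∈ cells, getZ la x.1 + getZ lb x.2.1 = getZ lc x.2.2.1 := by
  decide +kernel

theorem black_eq : ∀ x ∈ cells, getZ ma x.1 + getZ mb x.2.1 = getZ mc x.2.2.2 := by
  decide +kernel

theorem la_inj : ∀ i < 19, ∀ j < 19, (pp : ℤ) ∣ getZ la i - getZ la j → i = j := by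
  decide +kernel

theorem lb_inj : ∀ i < 19, ∀ j < 19, (pp : ℤ) ∣ getZ lb i - getZ lb j → i = j := by
  decide +kernel

theorem lc_inj : ∀ i < 22, ∀ j < 22, (pp : ℤ) ∣ getZ lc i - getZ lc j → i = j := by
  decide +kernel

theorem ma_inj : ∀ i < 19, ∀ j < 19, (pp : ℤ) ∣ getZ ma i - getZ ma j → i = j := by
  decide +kernel

theorem mb_inj : ∀ i < 19, ∀ j < 19, (pp : ℤ) ∣ getZ mb i - getZ mb j → i = j := by
  decide +kernel

theorem mc_inj : ∀ i < 22, ∀ j < 22, (pp : ℤ) ∣ getZ mc i - getZ mc j → i = j := by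
  decide +kernel

theorem white_ne_black : ∀ x ∈ cells, x.2.2.1 ≠ x.2.2.2 := by
  decide

theorem base_not_mem : ∀ x ∈ cells, ¬ (x.1 = 0 ∧ x.2.1 = 0) := by
  decide

theorem cells_inj : ∀ x ∈ cells, ∀ y ∈ cells, x.1 = y.1 → x.2.1 = y.2.1 → x = y := by
  decide +kernel

theorem cells_nodup : cells.Nodup := by
  decide +kernel

theorem row_wb : ∀ x ∈ cells, (x.1 = 0 ∧ x.2.2.1 = 0) ∨
    ∃ y ∈ cells, y.1 = x.1 ∧ y.2.2.2 = x.2.2.1 := by
  decide +kernel

theorem row_bw : ∀ x ∈ cells, (x.1 = 0 ∧ x.2.2.2 = 1) ∨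
    ∃ y ∈ cells, y.1 = x.1 ∧ y.2.2.1 = x.2.2.2 := by
  decide +kernel

theorem col_wb : ∀ x ∈ cells, (x.2.1 = 0 ∧ x.2.2.1 = 0) ∨
    ∃ y ∈ cells, y.2.1 = x.2.1 ∧ y.2.2.2 = x.2.2.1 := by
  decide +kernel

theorem col_bw : ∀ x ∈ cells, (x.2.1 = 0 ∧ x.2.2.2 = 1) ∨
    ∃ y ∈ cells, y.2.1 = x.2.1 ∧ y.2.2.1 = x.2.2.2 := by
  decide +kernel

theorem row_zero_white_zero : ∃ x ∈ cells, x.1 = 0 ∧ x.2.2.1 = 0 := by decide +kernel
theorem row_zero_black_one : ∃ x ∈ cells, x.1 = 0 ∧ x.2.2.2 = 1 := by decide +kernel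
theorem col_zero_white_zero : ∃ x ∈ cells, x.2.1 = 0 ∧ x.2.2.1 = 0 := by decide +kernel
theorem col_zero_black_one : ∃ x ∈ cells, x.2.1 = 0 ∧ x.2.2.2 = 1 := by decide +kernel

/-- cells together with their multipliers -/
def mcells : List (ℤ × ℕ × ℕ × ℕ × ℕ) := List.zip mult cells

theorem mcells_map : ∀ x ∈ mcells, x.2 ∈ cells := by
  decide +kernel

theorem mult_row : ∀ r < 19, r ≠ 0 →
    (mcells.map fun x => if x.2.1 = r then x.1 else 0).sum = 0 := by
  decide +kernel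

theorem mult_row_zero :
    (mcells.map fun x => if x.2.1 = 0 then x.1 else 0).sum = (pp : ℤ) - bb := by
  decide +kernel

theorem mult_col : ∀ c < 19, c ≠ 0 →
    (mcells.map fun x => if x.2.2.1 = c then x.1 else 0).sum = 0 := by
  decide +kernel

theorem mult_col_zero :
    (mcells.map fun x => if x.2.2.1 = 0 then x.1 else 0).sum = (pp : ℤ) - bb := by
  decide +kernel

theorem mult_sym : ∀ s < 22, s ≠ 0 → s ≠ 1 →
    (mcells.map fun x => if x.2.2.2.1 = s then x.1 else 0).sum = 0 := by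
  decide +kernel

theorem mult_sym_zero :
    (mcells.map fun x => if x.2.2.2.1 = 0 then x.1 else 0).sum = (pp : ℤ) := by
  decide +kernel

theorem mult_sym_one :
    (mcells.map fun x => if x.2.2.2.1 = 1 then x.1 else 0).sum = -(bb : ℤ) := by
  decide +kernel

theorem pp_prime : Nat.Prime pp := by
  unfold pp
  norm_num

theorem not_dvd_bb : ¬ pp ∣ bb := by decide

end Pool.Agent.H13.Bitrade.Gadget
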